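import Mathlib

/-!
# Self-similar actions from virtual endomorphisms

A virtual endomorphism `φ : H → G` of a group `G` with `H` of finite index gives a self-similar
action of `G` on the words over `G ⧸ H`; it is faithful if no nontrivial normal subgroup of `G`
contained in `H` is mapped into itself.
-/

set_option autoImplicit false

namespace Pool.Agent.W380.VirtEndo

open scoped Classical

variable {G : Type*} [Group G] {H : Subgroup G}

lemma mem_sec (g : G) (x : G ⧸ H) : (g • x).out⁻¹ * g * x.out ∈ H := by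
  rw [mul_assoc, ← QuotientGroup.eq, QuotientGroup.out_eq']
  conv_lhs => rw [← QuotientGroup.out_eq' x]
  rfl

variable (φ : H →* G)

/-- sections -/
noncomputable def sec (g : G) (x : G ⧸ H) : G := φ ⟨(g • x).out⁻¹ * g * x.out, mem_sec g x⟩

lemma sec_one (x : G ⧸ H) : sec φ 1 x = 1 := by
  unfold sec
  have : (⟨((1 : G) • x).out⁻¹ * 1 * x.out, mem_sec 1 x⟩ : H) = 1 := by
    apply Subtype.ext
    simp
  rw [this, map_one]

lemma sec_mul (g h : G) (x : G ⧸ H) : sec φ (g * h) x = sec φ g (h • x) * sec φ h x := by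
  unfold sec
  rw [← map_mul]
  congr 1
  apply Subtype.ext
  simp only [Subgroup.coe_mul, mul_smul]
  group

/-- the recursive action -/
noncomputable def act : G → List (G ⧸ H) → List (G ⧸ H)
  | _, [] => []
  | g, x :: w => (g • x) :: act (sec φ g x) w

lemma act_one (w : List (G ⧸ H)) : act φ 1 w = w := by
  induction w with
  | nil => rfl
  | cons x w ih => simp [act, sec_one, ih]

lemma act_mul (g h : G) (w : List (G ⧸ H)) : act φ (g * h) w = act φ g (act φ h w) := by
  induction w generalizing g h with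
  | nil => rfl
  | cons x w ih => simp [act, sec_mul, ih, mul_smul]

/-- the action as a homomorphism -/
noncomputable def rho : G →* Equiv.Perm (List (G ⧸ H)) where
  toFun g :=
    { toFun := act φ g
      invFun := act φ g⁻¹
      left_inv := fun w => by rw [← act_mul, inv_mul_cancel, act_one]
      right_inv := fun w => by rw [← act_mul, mul_inv_cancel, act_one] }
  map_one' := by
    ext1 w
    exact act_one φ w
  map_mul' g h := by
    ext1 w
    exact act_mul φ g h w

lemma rho_apply (g : G) (w : List (G ⧸ H)) : rho φ g w = act φ g w := rfl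

lemma rho_cons (g : G) (x : G ⧸ H) (w : List (G ⧸ H)) :
    rho φ g (x :: w) = (g • x) :: rho φ (sec φ g x) w := rfl

theorem rho_injective
    (hcore : ∀ K : Subgroup G, K.Normal → ∀ hK : K ≤ H,
      (∀ k (hk : k ∈ K), φ ⟨k, hK hk⟩ ∈ K) → K = ⊥) :
    Function.Injective (rho φ) := by
  rw [← MonoidHom.ker_eq_bot_iff]
  have hfix : ∀ k ∈ (rho φ).ker, ∀ x : G ⧸ H, k • x = x ∧ sec φ k x ∈ (rho φ).ker := by
    intro k hk x
    have h1 : ∀ w, rho φ k w = w := by
      intro w
      rw [MonoidHom.mem_ker] at hk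
      rw [hk]; rfl
    constructor
    · have := h1 [x]
      rw [rho_cons] at this
      exact (List.cons.inj this).1
    · rw [MonoidHom.mem_ker]
      ext1 w
      have := h1 (x :: w)
      rw [rho_cons] at this
      exact (List.cons.inj this).2
  have hK : (rho φ).ker ≤ H := by
    intro k hk
    have h1 := (hfix k hk ((1 : G) : G ⧸ H)).1
    have h2 : ((k * 1 : G) : G ⧸ H) = ((1 : G) : G ⧸ H) := h1
    rw [mul_one] at h2
    have h3 := QuotientGroup.eq.1 h2.symm
    simpa using h3
  refine hcore _ inferInstance hK ?_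
  intro k hk
  set x₀ : G ⧸ H := ((1 : G) : G ⧸ H) with hx₀
  have hn : x₀.out * k * x₀.out⁻¹ ∈ (rho φ).ker :=
    (inferInstance : (rho φ).ker.Normal).conj_mem k hk x₀.out
  obtain ⟨h1, h2⟩ := hfix _ hn x₀
  have h3 : sec φ (x₀.out * k * x₀.out⁻¹) x₀ = φ ⟨k, hK hk⟩ := by
    unfold sec
    congr 1
    apply Subtype.ext
    show ((x₀.out * k * x₀.out⁻¹) • x₀).out⁻¹ * (x₀.out * k * x₀.out⁻¹) * x₀.out = k
    rw [h1]
    group
  rw [← h3]
  exact h2

/-- **Self-similar action of a virtual endomorphism** over the alphabet `Fin n`, `n = [G : H]`. -/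
theorem exists_rho_fin [H.FiniteIndex]
    (hcore : ∀ K : Subgroup G, K.Normal → ∀ hK : K ≤ H,
      (∀ k (hk : k ∈ K), φ ⟨k, hK hk⟩ ∈ K) → K = ⊥) :
    ∃ ρ : G →* Equiv.Perm (List (Fin H.index)), Function.Injective ρ ∧
      ∀ (g : G) (x : Fin H.index), ∃ (h : G) (y : Fin H.index), ∀ w : List (Fin H.index),
        ρ g (x :: w) = y :: ρ h w := by
  haveI : Finite (G ⧸ H) := inferInstance
  have e : (G ⧸ H) ≃ Fin H.index := Finite.equivFinOfCardEq rfl
  let E : Equiv.Perm (List (G ⧸ H)) ≃* Equiv.Perm (List (Fin H.index)) :=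
    (Equiv.listEquivOfEquiv e).permCongrHom
  refine ⟨E.toMonoidHom.comp (rho φ), ?_, ?_⟩
  · exact E.injective.comp (rho_injective φ hcore)
  · intro g x
    refine ⟨sec φ g (e.symm x), e (g • e.symm x), fun w => ?_⟩
    show (Equiv.listEquivOfEquiv e) (rho φ g ((Equiv.listEquivOfEquiv e).symm (x :: w))) = _ ::
      (Equiv.listEquivOfEquiv e) (rho φ _ ((Equiv.listEquivOfEquiv e).symm w))
    have h1 : (Equiv.listEquivOfEquiv e).symm (x :: w) =
      e.symm x :: (Equiv.listEquivOfEquiv e).symm w := by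
      rfl
    rw [h1, rho_cons]
    rfl

end Pool.Agent.W380.VirtEndo
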